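import Pool.Agent.Helper86.LN.Main

/-!
The final form: after removing `s` places, the infinite places and the finite places with
`ord j < -N` contribute at most `(1 - δ)` times the height of the curve.
-/

open Height AdmissibleAbsValues Filter Topology

namespace Pool.Agent.Helper86.LN

open WeierstrassCurve WeierstrassCurve.Affine WeierstrassCurve.Affine.Point NumberField
open Pool.Agent.Helper86.LH Pool.Agent.Helper86.LK Pool.Agent.Helper86.LM

variable {K : Type*} [Field K] [NumberField K] [DecidableEq K]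
  (W : WeierstrassCurve.Affine K) [W.IsElliptic]

open Classical in
/-- The contribution of the other places. -/
noncomputable def deepR (A : Finset (InfinitePlace K)) (B : Finset (NV K)) (N : ℕ) : ℝ :=
  ∑ w ∈ Aᶜ, w.mult * Real.posLog (w W.j) +
    ∑ᶠ v : NV K, (if v ∈ B ∨ SmallPole W N v.val then 0 else Real.posLog (v.val W.j))

omit [DecidableEq K] in
theorem part_add_deepR (A : Finset (InfinitePlace K)) (B : Finset (NV K)) (N : ℕ) :
    part W A B N + deepR W A B N = logHeight₁ W.j := by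
  classical
  have hfs : ∀ f : NV K → ℝ, (∀ v : NV K, v.val W.j ≤ 1 → f v = 0) →
      (Function.support f).Finite := by
    intro f hf
    refine (fin_gt (K := K) W.j).subset ?_
    intro v hv
    by_contra hc
    apply hv
    apply hf
    simpa only [Set.mem_ofPred_eq, not_lt] using hc
  have hp0 : ∀ v : NV K, v.val W.j ≤ 1 → Real.posLog (v.val W.j) = 0 := by
    intro v hv
    rw [Real.posLog_eq_log_max_one (v.val.nonneg _), max_eq_left hv, Real.log_one]
  have e1 : ∑ᶠ v : NV K, (if v ∈ B ∨ SmallPole W N v.val then Real.posLog (v.val W.j) else 0) +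
      ∑ᶠ v : NV K, (if v ∈ B ∨ SmallPole W N v.val then 0 else Real.posLog (v.val W.j)) =
      hfin W := by
    rw [← finsum_add_distrib]
    · unfold hfin
      apply finsum_congr
      intro v
      by_cases hc : v ∈ B ∨ SmallPole W N v.val
      · rw [if_pos hc, if_pos hc, add_zero]
      · rw [if_neg hc, if_neg hc, zero_add]
    · apply hfs
      intro v hv
      rw [hp0 v hv, ite_self]
    · apply hfs
      intro v hv
      rw [hp0 v hv, ite_self]
  have e2 : ∑ w ∈ A, (w.mult : ℝ) * Real.posLog (w W.j) +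
      ∑ w ∈ Aᶜ, (w.mult : ℝ) * Real.posLog (w W.j) = hinf W := by
    rw [Finset.sum_add_sum_compl, hinf, asum_eq]
    rfl
  rw [hj_eq]
  unfold part deepR
  linarith

theorem rel4 {δ ε : ℝ} (hδ0 : 0 < δ) (hδ1 : δ ≤ 1) (P : W.Point)
    (hP : ∀ n : ℕ, 0 < n → n • P ≠ 0) {H : W.Point → ℝ}
    (hH : ∀ P : W.Point, Tendsto (fun k : ℕ => logHeight ((2 ^ k • P).xRep) / 4 ^ k)
        atTop (𝓝 (H P))) (hHm : ∀ (P : W.Point) (m : ℕ), H (m • P) = m ^ 2 * H P)
    (hH0 : ∀ P : W.Point, 0 ≤ H P) {s N : ℕ} (hε : ε = δ / (8 * (s + N ^ 2 + N + 1)))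
    (A : Finset (InfinitePlace K)) (B : Finset (NV K)) (hAB : A.card + B.card ≤ s)
    (hw : deepR W A B N ≤ (1 - δ) * (dmin W + hinf W)) :
    ε ^ 3 * (dmin W + hinf W) / 450000 - 151 * (4 : ℝ) ^ (180 / ε) * totalWeight K ≤ H P := by
  have hs0 : (0 : ℝ) ≤ s := Nat.cast_nonneg _
  have hN0 : (0 : ℝ) ≤ N := Nat.cast_nonneg _
  have hN2 : (0 : ℝ) ≤ (N : ℝ) ^ 2 := sq_nonneg _
  have hden : (0 : ℝ) < 8 * (s + N ^ 2 + N + 1) := by linarith
  have hε0 : 0 < ε := by rw [hε]; positivity
  have hεδ : ε ≤ δ := by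
    rw [hε, div_le_iff₀ hden]
    nlinarith
  have hε1 : ε ≤ 1 := hεδ.trans hδ1
  have h5 : (1 : ℝ) ≤ totalWeight K := by
    exact_mod_cast NumberField.totalWeight_pos K
  have hpd := part_add_deepR W A B N
  have hJ := hj_eq W
  have hJ0 : 0 ≤ logHeight₁ W.j := zero_le_logHeight₁ _
  have ha0 := hfin_le_dmin W
  have hδ4 : 0 < δ / 4 := by positivity
  have hδ41 : δ / 4 ≤ 1 := by linarith
  have e1 : ε = (δ / 4) / (2 * ((s + 1 + N * (N + 1) : ℕ) : ℝ)) := by
    rw [hε]
    push_cast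
    rw [div_div]
    congr 1
    ring
  have hr0 : 0 < s + 1 + N * (N + 1) := by omega
  by_cases h1 : δ / 4 * logHeight₁ W.j ≤ part W A B N
  · rw [e1]
    exact rel3 W hδ4 hδ41 P hP hH hHm hH0 (s := s + 1) rfl hr0 (Or.inl ⟨A, B, by omega, h1⟩)
  by_cases h2 : hfin W + δ / 4 * logHeight₁ W.j + 44 * totalWeight K ≤ dmin W
  · rw [e1]
    exact rel3 W hδ4 hδ41 P hP hH hHm hH0 (s := s + 1) rfl hr0 (Or.inr h2)
  rw [not_le] at h1 h2
  -- the height of the curve is small
  set D := dmin W + hinf W with hD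
  have h3 : δ * D ≤ part W A B N + (dmin W - hfin W) := by
    have : D = logHeight₁ W.j + (dmin W - hfin W) := by rw [hD, hJ]; ring
    nlinarith
  have h4 : δ * D = δ * logHeight₁ W.j + δ * (dmin W - hfin W) := by
    rw [hD, hJ]; ring
  have h5' : 0 ≤ δ * (dmin W - hfin W) := mul_nonneg hδ0.le (by linarith)
  have h6 : δ * logHeight₁ W.j ≤ 88 * totalWeight K := by linarith
  have h7 : δ * (dmin W - hfin W) ≤ 66 * totalWeight K := by
    have h8 : dmin W - hfin W ≤ 66 * totalWeight K := by linarith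
    nlinarith
  have h8 : δ * D ≤ 154 * totalWeight K := by linarith
  have hD0 : 0 ≤ D := by
    have : D = logHeight₁ W.j + (dmin W - hfin W) := by rw [hD, hJ]; ring
    rw [this]
    linarith
  have h9 : ε ^ 3 * D ≤ 154 * totalWeight K := by
    have b1 : ε ^ 3 ≤ δ := by
      have b2 : ε ^ 2 ≤ 1 := pow_le_one₀ hε0.le hε1
      calc ε ^ 3 = ε ^ 2 * ε := by ring
        _ ≤ 1 * ε := mul_le_mul_of_nonneg_right b2 hε0.le
        _ = ε := one_mul _
        _ ≤ δ := hεδ
    exact (mul_le_mul_of_nonneg_right b1 hD0).trans h8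
  have a4 : (1 : ℝ) ≤ (4 : ℝ) ^ (180 / ε) := by
    apply Real.one_le_rpow (by norm_num)
    positivity
  have a5 : (totalWeight K : ℝ) ≤ (4 : ℝ) ^ (180 / ε) * totalWeight K := by nlinarith
  have a6 : 151 * (4 : ℝ) ^ (180 / ε) * totalWeight K =
      151 * ((4 : ℝ) ^ (180 / ε) * totalWeight K) := by ring
  rw [a6]
  have := hH0 P
  linarith

end Pool.Agent.Helper86.LN
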