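import Pool.Agent.Helper86.LN.Rat
import Pool.Agent.Helper86.LM.Fin

/-!
The inequality when the places with few possible values of the component coordinate, together with
`s` further places, carry a share `δ` of the height of `j`.
-/

open Height AdmissibleAbsValues Filter Topology

namespace Pool.Agent.Helper86.LN

open WeierstrassCurve WeierstrassCurve.Affine WeierstrassCurve.Affine.Point NumberField
open Pool.Agent.Helper86.LH Pool.Agent.Helper86.LK Pool.Agent.Helper86.LM

theorem pigeon_share {ι : Type*} (U : Finset ι) (T θ : ι → ℝ) (hT : ∀ x ∈ U, 0 ≤ T x)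
    (Z : Finset ℝ) (hZ : ∀ x ∈ U, θ x ∈ Z) {c : ℝ} (hc : c ≤ ∑ x ∈ U, T x) {r : ℕ}
    (hr : Z.card ≤ r) (hr0 : 0 < r) :
    ∃ I ⊆ U, ∃ ψ : ℝ, (∀ x ∈ I, θ x = ψ) ∧ c / r ≤ ∑ x ∈ I, T x := by
  classical
  have hr' : (0 : ℝ) < r := by exact_mod_cast hr0
  rcases le_or_gt c 0 with h0 | h0
  · refine ⟨∅, Finset.empty_subset _, 0, by simp, ?_⟩
    rw [Finset.sum_empty]
    exact div_nonpos_of_nonpos_of_nonneg h0 hr'.le
  · by_contra hcon
    push Not at hcon
    have h1 : ∀ ψ ∈ Z, ∑ x ∈ U with θ x = ψ, T x < c / r := fun ψ _ =>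
      hcon _ (Finset.filter_subset _ _) ψ (fun x hx => (Finset.mem_filter.mp hx).2)
    have h2 : ∑ x ∈ U, T x = ∑ ψ ∈ Z, ∑ x ∈ U with θ x = ψ, T x :=
      (Finset.sum_fiberwise_of_maps_to hZ T).symm
    have hZne : Z.Nonempty := by
      rw [Finset.nonempty_iff_ne_empty]
      rintro rfl
      rw [h2, Finset.sum_empty] at hc
      linarith
    have h3 : ∑ ψ ∈ Z, ∑ x ∈ U with θ x = ψ, T x < ∑ ψ ∈ Z, c / r :=
      Finset.sum_lt_sum_of_nonempty hZne h1
    rw [Finset.sum_const, nsmul_eq_mul] at h3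
    have h4 : (Z.card : ℝ) * (c / r) ≤ r * (c / r) :=
      mul_le_mul_of_nonneg_right (by exact_mod_cast hr) (by positivity)
    rw [mul_div_cancel₀ _ hr'.ne'] at h4
    linarith

theorem opt_small2 {δ T E H G t : ℝ} (hδ0 : 0 < δ) (hδ1 : δ ≤ 1) (hT : 0 ≤ T) (ht : 0 ≤ t)
    (hw : δ * T ≤ 94 * t) (hE : 0 ≤ E) (hG : 0 ≤ G) {M : ℕ} (hM1 : 14 / δ ≤ M)
    (hM2 : (M : ℝ) ≤ 15 / δ)
    (h : - (1 / 3 * T) + (M - 2) * (1 / 6 * G) - 2 * M * E ≤
      144 * H * (M : ℝ) ^ 3 / 3) :
    δ ^ 3 * (T + G) / 450000 - (E + 5 * t) ≤ H := by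
  have hM14 : (14 : ℝ) ≤ M := by
    refine le_trans ?_ hM1
    rw [le_div_iff₀ hδ0]
    linarith
  refine opt_core hδ0 hδ1 hT (by linarith) hG hM1 hM2 ?_
  have a1 : 0.7 * T ≤ 10 * M * t := by
    have b2 : 14 ≤ M * δ := by
      have := mul_le_mul_of_nonneg_right hM1 hδ0.le
      rwa [div_mul_cancel₀ _ hδ0.ne'] at this
    have b5 : 14 * T ≤ M * δ * T := mul_le_mul_of_nonneg_right b2 hT
    have b6 : M * δ * T ≤ M * (94 * t) := by
      rw [mul_assoc]
      exact mul_le_mul_of_nonneg_left hw (by linarith)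
    have b7 : 0 ≤ M * t := mul_nonneg (by linarith) ht
    linarith
  have a1' : 11 / 30 * G ≤ (M - 2) * (1 / 6 * G) := by nlinarith
  norm_num at a1
  linarith

variable {K : Type*} [Field K] [NumberField K] [DecidableEq K]
  (W : WeierstrassCurve.Affine K) [W.IsElliptic]

/-- The three cases, with a set of places having the same component coordinate. -/
theorem all_main3 {δ : ℝ} (hδ0 : 0 < δ) (hδ1 : δ ≤ 1) {S : Finset (NV K)} (hS : Big W S)
    (P : W.Point) (hP : ∀ n : ℕ, 0 < n → n • P ≠ 0) {H : W.Point → ℝ}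
    (hH : ∀ P : W.Point, Tendsto (fun k : ℕ => logHeight ((2 ^ k • P).xRep) / 4 ^ k)
        atTop (𝓝 (H P))) (hHm : ∀ (P : W.Point) (m : ℕ), H (m • P) = m ^ 2 * H P)
    (hH0 : ∀ P : W.Point, 0 ≤ H P)
    (hw : (∃ I ⊆ (Finset.univ : Finset (InfinitePlace K)).disjSum S, ∃ ψ : ℝ,
        (∀ x ∈ I, 12 * TH W P x = ψ) ∧ δ * logHeight₁ W.j ≤ ∑ x ∈ I, TT W x) ∨
        δ * logHeight₁ W.j ≤ 94 * totalWeight K ∨
        δ * logHeight₁ W.j ≤ addH W) :
    δ ^ 3 * (logHeight₁ W.j + addH W) / 450000 - 150 * (4 : ℝ) ^ (180 / δ) * totalWeight K ≤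
      H P := by
  classical
  obtain ⟨M, hM, hM1, hM2⟩ := exists_M hδ0 hδ1
  have hT := TT_sum W hS
  have h5 : (0 : ℝ) ≤ totalWeight K := Nat.cast_nonneg _
  have h5' : (1 : ℝ) ≤ totalWeight K := by
    exact_mod_cast NumberField.totalWeight_pos K
  have h4M : (4 : ℝ) ^ (12 * M) ≤ (4 : ℝ) ^ (180 / δ) := by
    rw [← Real.rpow_natCast]
    apply Real.rpow_le_rpow_of_exponent_le (by norm_num)
    push_cast
    have : 180 / δ = 12 * (15 / δ) := by ring
    rw [this]
    linarith
  set T := ∑ x ∈ (Finset.univ : Finset (InfinitePlace K)).disjSum S, TT W x with hTdef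
  set E := 135 * (4 : ℝ) ^ (12 * M) * totalWeight K with hE
  set G := addH W with hG
  have hGS : G = ∑ v ∈ S, ga W v.val := addH_eq W hS
  have hG0 : 0 ≤ G := by
    rw [hGS]
    exact Finset.sum_nonneg fun v _ => ga_nonneg W v.val
  have hE0 : 0 ≤ E := by positivity
  have hT0 : 0 ≤ T := Finset.sum_nonneg fun y _ => TT_nonneg W y
  have hH144 : 0 ≤ 144 * H P := by have := hH0 P; linarith
  have hineq : ∀ m ∈ Finset.Icc 1 M,
      ∑ x ∈ (Finset.univ : Finset (InfinitePlace K)).disjSum S,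
        TT W x * B2 (m * (12 * TH W P x)) + 1 / 6 * G - E ≤ (m : ℝ) ^ 2 * (144 * H P) := by
    intro m hm
    have := mult_ineq2 W hS P hP hH hHm hm
    rw [← hGS] at this
    exact this
  have key : ∀ I ⊆ (Finset.univ : Finset (InfinitePlace K)).disjSum S, ∀ ψ : ℝ,
      (∀ v ∈ I, 12 * TH W P v = ψ) →
      M / (2 * Real.pi ^ 2) * ∑ v ∈ I, TT W v - 1 / 3 * T + (M - 2) * (1 / 6 * G) -
        2 * M * E ≤ 144 * H P * (M : ℝ) ^ 3 / 3 := fun I hI ψ hψ =>
    weighted2 ((Finset.univ : Finset (InfinitePlace K)).disjSum S) (TT W)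
      (fun x => 12 * TH W P x) (fun y _ => TT_nonneg W y) I hI ψ hψ (144 * H P) E (1 / 6 * G)
      hH144 hE0 (by positivity) M hM hineq
  have key0 : -(1 / 3 * T) + (M - 2) * (1 / 6 * G) - 2 * M * E ≤
      144 * H P * (M : ℝ) ^ 3 / 3 := by
    have := key ∅ (Finset.empty_subset _) 0 (fun v hv => absurd hv (Finset.notMem_empty v))
    rw [Finset.sum_empty, mul_zero, zero_sub] at this
    exact this
  have hδT : δ * T ≤ δ * logHeight₁ W.j := mul_le_mul_of_nonneg_left hT.2 hδ0.le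
  have fin : δ ^ 3 * (T + G) / 450000 - (E + 5 * totalWeight K) ≤ H P := by
    rcases hw with ⟨I, hI, ψ, hψ, hw⟩ | hw | hw
    · have k1 := key I hI ψ hψ
      have := opt_place hδ0 hδ1 hT0 (hδT.trans hw) hE0 hG0 hM1 hM2 k1
      linarith
    · exact opt_small2 hδ0 hδ1 hT0 h5 (hδT.trans hw) hE0 hG0 hM1 hM2 key0
    · have := opt_add hδ0 hδ1 hT0 (hδT.trans hw) hE0 hG0 hM1 hM2 key0
      linarith
  have hd3 : δ ^ 3 ≤ 1 := pow_le_one₀ hδ0.le hδ1
  have hd3' : 0 < δ ^ 3 := by positivity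
  have a1 : δ ^ 3 * (logHeight₁ W.j + G) ≤ δ ^ 3 * (T + G) + 47 * totalWeight K := by
    have b1 : logHeight₁ W.j + G ≤ (T + G) + 47 * totalWeight K := by linarith [hT.1]
    have b2 := mul_le_mul_of_nonneg_left b1 hd3'.le
    have b3 : δ ^ 3 * (47 * (totalWeight K : ℝ)) ≤ 1 * (47 * totalWeight K) :=
      mul_le_mul_of_nonneg_right hd3 (by positivity)
    linarith
  have a3 : E ≤ 135 * ((4 : ℝ) ^ (180 / δ) * totalWeight K) := by
    rw [hE, mul_assoc]
    apply mul_le_mul_of_nonneg_left _ (by norm_num)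
    exact mul_le_mul_of_nonneg_right h4M h5
  have a4 : (1 : ℝ) ≤ (4 : ℝ) ^ (180 / δ) := by
    apply Real.one_le_rpow (by norm_num)
    positivity
  have a5 : (totalWeight K : ℝ) ≤ (4 : ℝ) ^ (180 / δ) * totalWeight K := by nlinarith
  have a6 : 150 * (4 : ℝ) ^ (180 / δ) * totalWeight K =
      150 * ((4 : ℝ) ^ (180 / δ) * totalWeight K) := by ring
  rw [a6]
  linarith

open Classical in
/-- The contribution of `A`, `B` and of the places with `ord j ≥ -N`. -/
noncomputable def part (A : Finset (InfinitePlace K)) (B : Finset (NV K)) (N : ℕ) : ℝ :=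
  ∑ w ∈ A, w.mult * Real.posLog (w W.j) +
    ∑ᶠ v : NV K, (if v ∈ B ∨ SmallPole W N v.val then Real.posLog (v.val W.j) else 0)

theorem rel3 {δ : ℝ} (hδ0 : 0 < δ) (hδ1 : δ ≤ 1) (P : W.Point)
    (hP : ∀ n : ℕ, 0 < n → n • P ≠ 0) {H : W.Point → ℝ}
    (hH : ∀ P : W.Point, Tendsto (fun k : ℕ => logHeight ((2 ^ k • P).xRep) / 4 ^ k)
        atTop (𝓝 (H P))) (hHm : ∀ (P : W.Point) (m : ℕ), H (m • P) = m ^ 2 * H P)
    (hH0 : ∀ P : W.Point, 0 ≤ H P) {s N r : ℕ} (hr : r = s + N * (N + 1)) (hr0 : 0 < r)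
    (hw : (∃ (A : Finset (InfinitePlace K)) (B : Finset (NV K)), A.card + B.card ≤ s ∧
        δ * logHeight₁ W.j ≤ part W A B N) ∨
      hfin W + δ * logHeight₁ W.j + 44 * totalWeight K ≤ dmin W) :
    (δ / (2 * r)) ^ 3 * (dmin W + hinf W) / 450000 -
      151 * (4 : ℝ) ^ (180 / (δ / (2 * r))) * totalWeight K ≤ H P := by
  classical
  have hΔ : W.Δ ≠ 0 := W.isUnit_Δ.ne_zero
  have h6 : (6 : K) ≠ 0 := by norm_num
  obtain ⟨S, hS⟩ := exists_big (W := W) hΔ h6
  have hd := dmin_le W hS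
  have hJ := hj_eq W
  have hJ0 : 0 ≤ logHeight₁ W.j := zero_le_logHeight₁ _
  have hr1 : (1 : ℝ) ≤ r := by exact_mod_cast hr0
  have hr2 : (0 : ℝ) < 2 * r := by linarith
  obtain ⟨ε, hε⟩ : ∃ ε : ℝ, ε = δ / (2 * r) := ⟨_, rfl⟩
  rw [← hε]
  have hε0 : 0 < ε := by rw [hε]; positivity
  have hεδ : ε ≤ δ := by
    rw [hε, div_le_iff₀ hr2]
    nlinarith
  have hε1 : ε ≤ 1 := hεδ.trans hδ1
  have hεJ : ε * logHeight₁ W.j ≤ δ * logHeight₁ W.j := mul_le_mul_of_nonneg_right hεδ hJ0
  have h5 : (1 : ℝ) ≤ totalWeight K := by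
    exact_mod_cast NumberField.totalWeight_pos K
  have key : ε ^ 3 * (logHeight₁ W.j + addH W) / 450000 -
      150 * (4 : ℝ) ^ (180 / ε) * totalWeight K ≤ H P := by
    refine all_main3 W hε0 hε1 hS P hP hH hHm hH0 ?_
    rcases hw with ⟨A, B, hAB, hw⟩ | hw
    swap
    · exact Or.inr (Or.inr (by linarith))
    by_cases hsm : δ * logHeight₁ W.j ≤ 94 * totalWeight K
    · exact Or.inr (Or.inl (hεJ.trans hsm))
    rw [not_le] at hsm
    refine Or.inl ?_
    set U2 := S.filter (fun v => IsMul W v.val ∧ (v ∈ B ∨ SmallPole W N v.val)) with hU2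
    set U := A.disjSum U2 with hU
    have hUS : U ⊆ (Finset.univ : Finset (InfinitePlace K)).disjSum S :=
      Finset.disjSum_mono (Finset.subset_univ _) (Finset.filter_subset _ _)
    have eU : ∑ x ∈ U, TT W x = ∑ w ∈ A, TT W (Sum.inl w) + ∑ v ∈ U2, TT W (Sum.inr v) := by
      rw [hU, Finset.sum_disjSum]
    have hmult : ∑ w : InfinitePlace K, (w.mult : ℝ) = totalWeight K := by
      have h1 := asum_const (K := K) 1
      rw [asum_eq] at h1
      simpa using h1
    have a1 : ∑ w ∈ A, (w.mult : ℝ) * Real.posLog (w W.j) ≤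
        ∑ w ∈ A, TT W (Sum.inl w) + 47 * totalWeight K := by
      have b1 : ∀ w ∈ A, (w.mult : ℝ) * Real.posLog (w W.j) ≤
          TT W (Sum.inl w) + 47 * w.mult := by
        intro w _
        have hwv : w W.j = w.val W.j := rfl
        have hm0 : (0 : ℝ) ≤ w.mult := Nat.cast_nonneg _
        unfold TT
        dsimp only
        split_ifs with hm
        · rw [nj_eq, hwv, Real.posLog_eq_log_max_one (w.val.nonneg _),
            max_eq_right ((isMul_iff W w.val).mp hm.mul).le]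
          linarith
        · have h1 := not_isAM hΔ hm
          have h2 : Real.posLog (w W.j) ≤ 47 := by
            rw [hwv, ← max_j W w.val]
            have h3 : Real.log (max 1 (w.val W.c₄ ^ 3 / w.val W.Δ)) ≤ 20 * Real.log 10 := by
              have e : 20 * Real.log 10 = Real.log (10 ^ 20) := by
                rw [Real.log_pow]; norm_num
              rw [e]
              apply Real.log_le_log (lt_of_lt_of_le one_pos (le_max_left _ _))
              exact max_le (by norm_num) h1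
            have := log_ten_lt
            linarith
          have := mul_le_mul_of_nonneg_left h2 hm0
          linarith
      refine (Finset.sum_le_sum b1).trans ?_
      rw [Finset.sum_add_distrib, ← Finset.mul_sum]
      have b2 : ∑ w ∈ A, (w.mult : ℝ) ≤ ∑ w : InfinitePlace K, (w.mult : ℝ) :=
        Finset.sum_le_sum_of_subset_of_nonneg (Finset.subset_univ _)
          (fun w _ _ => Nat.cast_nonneg _)
      rw [hmult] at b2
      linarith
    have a2 : ∑ᶠ v : NV K, (if v ∈ B ∨ SmallPole W N v.val then Real.posLog (v.val W.j) else 0) =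
        ∑ v ∈ U2, TT W (Sum.inr v) := by
      rw [finsum_eq_sum_of_support_subset (s := S)]
      · rw [hU2, Finset.sum_filter]
        apply Finset.sum_congr rfl
        intro v _
        unfold TT
        dsimp only
        by_cases hm : IsMul W v.val
        · rw [if_pos hm, ← nj_eq_posLog hm, nj]
          simp only [hm, true_and]
        · rw [posLog_of_not hm]
          simp [hm]
      · intro v hv
        by_contra hc
        apply hv
        dsimp only
        rw [posLog_of_not (hS.not_mul (fun h => hc (Finset.mem_coe.mpr h))), ite_self]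
    have a3 : δ * logHeight₁ W.j / 2 ≤ ∑ x ∈ U, TT W x := by
      unfold part at hw
      rw [a2] at hw
      rw [eU]
      linarith
    set Ex := A.disjSum (S.filter (fun v => v ∈ B)) with hEx
    have hExc : Ex.card ≤ s := by
      rw [hEx, Finset.card_disjSum]
      have : (S.filter (fun v => v ∈ B)).card ≤ B.card :=
        Finset.card_le_card (fun v hv => (Finset.mem_filter.mp hv).2)
      omega
    set Z := VV N ∪ Ex.image (fun x => 12 * TH W P x) with hZ
    have hZc : Z.card ≤ r := by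
      have h1 := Finset.card_union_le (VV N) (Ex.image (fun x => 12 * TH W P x))
      have h2 := VV_card N
      have h3 : (Ex.image (fun x => 12 * TH W P x)).card ≤ Ex.card := Finset.card_image_le
      rw [← hZ] at h1
      omega
    obtain ⟨I, hIU, ψ, hψ, hI⟩ := pigeon_share U (TT W) (fun x => 12 * TH W P x)
      (fun x _ => TT_nonneg W x) Z (by
        intro x hx
        rw [hZ, Finset.mem_union]
        rcases x with w | v
        · right
          rw [Finset.mem_image]
          refine ⟨Sum.inl w, ?_, rfl⟩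
          rw [hEx, Finset.inl_mem_disjSum]
          rwa [hU, Finset.inl_mem_disjSum] at hx
        · rw [hU, Finset.inr_mem_disjSum, hU2, Finset.mem_filter] at hx
          obtain ⟨hvS, hm, hv | hv⟩ := hx
          · right
            rw [Finset.mem_image]
            refine ⟨Sum.inr v, ?_, rfl⟩
            rw [hEx, Finset.inr_mem_disjSum, Finset.mem_filter]
            exact ⟨hvS, hv⟩
          · left
            exact tv_mem W hm hv P) a3 hZc hr0
    refine ⟨I, hIU.trans hUS, ψ, hψ, le_trans (le_of_eq ?_) hI⟩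
    rw [hε]
    field_simp
  have hd3 : ε ^ 3 ≤ 1 := pow_le_one₀ hε0.le hε1
  have hd3' : 0 < ε ^ 3 := by positivity
  have a1 : ε ^ 3 * (dmin W + hinf W) ≤ ε ^ 3 * (logHeight₁ W.j + addH W) +
      44 * totalWeight K := by
    have b1 : dmin W + hinf W ≤ (logHeight₁ W.j + addH W) + 44 * totalWeight K := by linarith
    have b2 := mul_le_mul_of_nonneg_left b1 hd3'.le
    have b3 : ε ^ 3 * (44 * (totalWeight K : ℝ)) ≤ 1 * (44 * totalWeight K) :=
      mul_le_mul_of_nonneg_right hd3 (by positivity)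
    linarith
  have a4 : (1 : ℝ) ≤ (4 : ℝ) ^ (180 / ε) := by
    apply Real.one_le_rpow (by norm_num)
    positivity
  have a5 : (totalWeight K : ℝ) ≤ (4 : ℝ) ^ (180 / ε) * totalWeight K := by nlinarith
  have a6 : 151 * (4 : ℝ) ^ (180 / ε) * totalWeight K =
      150 * (4 : ℝ) ^ (180 / ε) * totalWeight K + (4 : ℝ) ^ (180 / ε) * totalWeight K := by ring
  rw [a6]
  linarith

end Pool.Agent.Helper86.LN
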