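import Pool.Agent.Helper86.LK.Last

/-!
Places with `ord j ≥ -N`: the component coordinate takes at most `N (N + 1)` values.

PROOF of `tv_mem`.  Let `s = v p`, `0 < s < 1`.  Every `x ≠ 0` has `v x = s ^ k`, `k : ℤ`
(`exists_mem_Ioc_zpow` for `s⁻¹`, apply the maximality to `x * p ^ (-k)`).  Here `IsMul W v` means
`v W.Δ < v W.c₄ ^ 3`, `qv W v = v W.Δ / v W.c₄ ^ 3 = s ^ n`, `n ≥ 1` as `qv < 1`
(`IsMul.qv_lt`), and `n ≤ N` from `v (p ^ N * W.j) ≤ 1` (`v W.j = (qv W v)⁻¹`, `j_eq` in LH/Fin1).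
By definition (`tt`, `al`, `nm` in LH/Defs.lean, `lv W v = √ (v W.c₄)`)
`tv W v P = log (max (v X / nm v l X Z) (√ q)) / log q`, `X = x - rr W * z`; `al` is `1`,
`v X / (l * v Z)` or `√ q`; its square is a power `s ^ k`, and `tv ∈ [0, 1/2]` (`tv_bounds`), so
`2 * n * tv = k` with `0 ≤ k ≤ n`.
-/

namespace Pool.Agent.Helper86.LN

open WeierstrassCurve WeierstrassCurve.Affine WeierstrassCurve.Affine.Point
open Pool.Agent.Helper86.LH

variable {K : Type*} [Field K]

/-- `ord j ≥ -N` at `v`. -/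
def SmallPole (W : WeierstrassCurve.Affine K) [W.IsElliptic] (N : ℕ) (v : AbsoluteValue K ℝ) :
    Prop :=
  ∃ p : K, p ≠ 0 ∧ v p < 1 ∧ (∀ q : K, v q < 1 → v q ≤ v p) ∧ v (p ^ N * W.j) ≤ 1

/-- The possible values of 12 times the component coordinate. -/
noncomputable def VV (N : ℕ) : Finset ℝ :=
  (Finset.Icc 1 N ×ˢ Finset.range (N + 1)).image fun x : ℕ × ℕ => 12 * ((x.2 : ℝ) / (2 * x.1))

theorem VV_card (N : ℕ) : (VV N).card ≤ N * (N + 1) := by
  unfold VV
  refine Finset.card_image_le.trans ?_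
  rw [Finset.card_product, Nat.card_Icc, Finset.card_range]
  exact le_refl _

theorem val_pow {v : AbsoluteValue K ℝ} {p : K} (hp : p ≠ 0) (hp1 : v p < 1)
    (hmax : ∀ q : K, v q < 1 → v q ≤ v p) {x : K} (hx : x ≠ 0) : ∃ k : ℤ, v x = v p ^ k := by
  have hs0 : 0 < v p := v.pos hp
  obtain ⟨n, h1, h2⟩ := exists_mem_Ico_zpow (v.pos hx) ((one_lt_inv₀ hs0).2 hp1)
  refine ⟨-n, ?_⟩
  rw [inv_zpow'] at h1 h2
  refine le_antisymm ?_ h1
  have h3 : v (x * p ^ (n + 1)) < 1 := by
    rw [map_mul, map_zpow₀]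
    have h4 := mul_lt_mul_of_pos_right h2 (zpow_pos hs0 (n + 1))
    rwa [← zpow_add₀ hs0.ne', neg_add_cancel, zpow_zero] at h4
  have h4 := hmax _ h3
  rw [map_mul, map_zpow₀] at h4
  have h5 := mul_le_mul_of_nonneg_right h4 (zpow_nonneg hs0.le (-(n + 1)))
  rw [mul_assoc, ← zpow_add₀ hs0.ne', add_neg_cancel, zpow_zero, mul_one] at h5
  refine h5.trans (le_of_eq ?_)
  rw [← zpow_one_add₀ hs0.ne']
  congr 1
  ring

variable [DecidableEq K] (W : WeierstrassCurve.Affine K) [W.IsElliptic]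

theorem tv_mem {v : AbsoluteValue K ℝ} (hm : IsMul W v) {N : ℕ} (h : SmallPole W N v)
    (P : W.Point) : 12 * tv W v P ∈ VV N := by
  obtain ⟨p, hp, hp1, hmax, hj⟩ := h
  have hΔ : W.Δ ≠ 0 := W.isUnit_Δ.ne_zero
  have hs0 : 0 < v p := v.pos hp
  have hq0 : 0 < qv W v := hm.qv_pos hΔ
  have hq1 : qv W v < 1 := hm.qv_lt
  have hl0 : 0 < lv W v := hm.lv_pos
  have hc4 : W.c₄ ≠ 0 := by
    intro h0
    have h1 := hm.c4
    rw [h0, _root_.map_zero] at h1
    exact lt_irrefl _ h1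
  have hqv : qv W v = v (W.Δ / W.c₄ ^ 3) := by
    rw [map_div₀, map_pow]
    rfl
  obtain ⟨n, hn⟩ := val_pow hp hp1 hmax (x := W.Δ / W.c₄ ^ 3)
    (div_ne_zero hΔ (pow_ne_zero _ hc4))
  rw [← hqv] at hn
  have hL : Real.log (v p) < 0 := Real.log_neg hs0 hp1
  have hlogq : Real.log (qv W v) = n * Real.log (v p) := by rw [hn, Real.log_zpow]
  have hn0 : (0 : ℝ) < n := by
    have h1 : Real.log (qv W v) < 0 := Real.log_neg hq0 hq1
    rw [hlogq] at h1
    by_contra hc
    rw [not_lt] at hc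
    nlinarith
  have hn1 : 1 ≤ n := by
    have h1 : (0 : ℤ) < n := by exact_mod_cast hn0
    omega
  have hnN : n ≤ N := by
    have h1 : v p ^ N ≤ qv W v := by
      rw [Pool.Agent.Helper86.LH.j_eq, map_mul, map_pow, map_div₀, map_pow, ← mul_div_assoc,
        div_le_one (v.pos hΔ)] at hj
      rw [qv, le_div_iff₀ (pow_pos hm.c4 3)]
      exact hj
    rw [hn, ← zpow_natCast] at h1
    exact (zpow_le_zpow_iff_right_of_lt_one₀ hs0 hp1).1 h1
  -- the logarithm of `al`
  have key : ∃ k : ℤ, Real.log (al v (lv W v) (qv W v) (P.xRep 0 - rr W * P.xRep 1) (P.xRep 1)) =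
      k / 2 * Real.log (v p) := by
    have hXZ := xRep_or P
    generalize P.xRep 0 - rr W * P.xRep 1 = X at hXZ ⊢
    generalize P.xRep 1 = Z at hXZ ⊢
    unfold al nm
    have hsq : Real.sqrt (qv W v) < 1 := by
      rw [Real.sqrt_lt' one_pos, one_pow]
      exact hq1
    rcases le_or_gt (lv W v * v Z) (v X) with h1 | h1
    · refine ⟨0, ?_⟩
      have hX : 0 < v X := by
        rcases hXZ with h2 | h2
        · exact v.pos h2
        · exact (mul_pos hl0 (v.pos h2)).trans_le h1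
      rw [max_eq_left h1, div_self hX.ne', max_eq_left hsq.le, Real.log_one, Int.cast_zero,
        zero_div, zero_mul]
    · have hlZ : 0 < lv W v * v Z := (v.nonneg X).trans_lt h1
      rw [max_eq_right h1.le]
      rcases le_or_gt (v X / (lv W v * v Z)) (Real.sqrt (qv W v)) with h2 | h2
      · refine ⟨n, ?_⟩
        rw [max_eq_right h2, Real.log_sqrt hq0.le, hlogq]
        ring
      · rw [max_eq_left h2.le]
        have hr : 0 < v X / (lv W v * v Z) := (Real.sqrt_nonneg _).trans_lt h2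
        have hX : X ≠ 0 := by
          rintro rfl
          rw [_root_.map_zero, zero_div] at hr
          exact lt_irrefl _ hr
        have hZ : Z ≠ 0 := by
          rintro rfl
          rw [_root_.map_zero, mul_zero] at hlZ
          exact lt_irrefl _ hlZ
        obtain ⟨k, hk⟩ := val_pow hp hp1 hmax (x := X ^ 2 / (W.c₄ * Z ^ 2))
          (div_ne_zero (pow_ne_zero _ hX) (mul_ne_zero hc4 (pow_ne_zero _ hZ)))
        refine ⟨k, ?_⟩
        have h3 : (v X / (lv W v * v Z)) ^ 2 = v p ^ k := by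
          rw [← hk, map_div₀, map_mul, map_pow, map_pow, div_pow, mul_pow]
          have h4 : lv W v ^ 2 = v W.c₄ := Real.sq_sqrt (v.nonneg _)
          rw [h4]
        have h5 := congrArg Real.log h3
        rw [Real.log_pow, Real.log_zpow] at h5
        push_cast at h5
        linarith
  obtain ⟨k, hk⟩ := key
  have htv : tv W v P = (k : ℝ) / (2 * n) := by
    unfold tv tt
    rw [hk, hlogq, div_eq_div_iff (mul_ne_zero hn0.ne' hL.ne) (by linarith)]
    ring
  obtain ⟨hb0, hb1⟩ := tv_bounds hm hΔ P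
  rw [htv] at hb0 hb1
  have h2n : (0 : ℝ) < 2 * n := by linarith
  have hk0 : (0 : ℤ) ≤ k := by
    have h1 := mul_nonneg hb0 h2n.le
    rw [div_mul_cancel₀ _ h2n.ne'] at h1
    exact_mod_cast h1
  have hkn : k ≤ n := by
    rw [div_le_iff₀ h2n] at hb1
    have h1 : (k : ℝ) ≤ n := by linarith
    exact_mod_cast h1
  rw [VV, Finset.mem_image]
  refine ⟨(n.toNat, k.toNat), ?_, ?_⟩
  · rw [Finset.mem_product, Finset.mem_Icc, Finset.mem_range]
    refine ⟨⟨?_, ?_⟩, ?_⟩
    · simp only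
      omega
    · simp only
      omega
    · simp only
      omega
  · have e1 : ((n.toNat : ℕ) : ℝ) = n := by
      have : ((n.toNat : ℕ) : ℤ) = n := Int.toNat_of_nonneg (by omega)
      exact_mod_cast this
    have e2 : ((k.toNat : ℕ) : ℝ) = k := by
      have : ((k.toNat : ℕ) : ℤ) = k := Int.toNat_of_nonneg hk0
      exact_mod_cast this
    simp only
    rw [htv, e1, e2]

end Pool.Agent.Helper86.LN
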